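import Mathlib
import Pool.Agent.R341.PosRep

/-!
# Finite representations with bounded nonnegative digits for Pisot numbers

Let `β` be a Pisot number.  There is `m` such that every element of `ℤ[β] ∩ [0, 1)` is a finite sum
`∑_{j = 1}^k a_j β ^ (-j)` with `a_j ∈ {0, ..., m}` if and only if `β` has no positive real conjugate
besides `β` itself.  In particular this is so for all real cubic Pisot units with a non-real
conjugate.
-/

set_option autoImplicit false

open Polynomial

namespace Pool.Agent.Results.MP_f878ff_nt.PositiveDigits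

/-- `β` is a Pisot number: a real algebraic integer `β > 1` all of whose other Galois conjugates have
modulus less than one. -/
structure IsPisot (β : ℝ) : Prop where
  one_lt : 1 < β
  int : IsIntegral ℤ β
  lt : ∀ z : ℂ, aeval z (minpoly ℤ β) = 0 → z ≠ β → ‖z‖ < 1

/-- `x` has a finite `β`-representation over the alphabet `{0, ..., m}`. -/
def HasFiniteRep (β : ℝ) (m : ℕ) (x : ℝ) : Prop :=
  ∃ (k : ℕ) (a : ℕ → ℕ), (∀ j, a j ≤ m) ∧ x = ∑ j ∈ Finset.Icc 1 k, (a j : ℝ) / β ^ j

/-- For some `m`, every element of `ℤ[β] ∩ [0, 1)` has a finite `β`-representation over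
`{0, ..., m}`. -/
def FiniteDigits (β : ℝ) : Prop :=
  ∃ m : ℕ, ∀ x ∈ Algebra.adjoin ℤ {β}, 0 ≤ x → x < 1 → HasFiniteRep β m x

lemma rep_iff {β : ℝ} {m : ℕ} {x : ℝ} :
    HasFiniteRep β m x ↔ Pool.Agent.R341.PosRep.Rep β m x := by
  have key : ∀ (k : ℕ) (a : ℕ → ℝ), ∑ j ∈ Finset.Icc 1 k, a j / β ^ j =
      ∑ j ∈ Finset.range k, a (j + 1) / β ^ (j + 1) := by
    intro k a
    rw [Finset.range_eq_Ico, Finset.sum_Ico_add' (fun j => a j / β ^ j) 0 k 1]
    congr 1
  constructor
  · rintro ⟨k, a, ha, h⟩
    refine ⟨k, fun j => a (j + 1), fun j => ha _, ?_⟩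
    rw [h, key k (fun j => (a j : ℝ))]
  · rintro ⟨k, a, ha, h⟩
    refine ⟨k, fun j => a (j - 1), fun j => ha _, ?_⟩
    rw [h, key k (fun j => (a (j - 1) : ℝ))]
    simp

/-- **Main result.** -/
theorem result :
    -- Q1: every real cubic Pisot unit with a non-real conjugate has the finiteness property
    (∀ β : ℝ, IsPisot β → IsIntegral ℤ β⁻¹ → (minpoly ℤ β).natDegree = 3 →
      (∃ z : ℂ, aeval z (minpoly ℤ β) = 0 ∧ z.im ≠ 0) → FiniteDigits β) ∧
    -- the general criterion for Pisot numbers of any degree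
    (∀ β : ℝ, IsPisot β → (FiniteDigits β ↔
      ∀ z : ℂ, aeval z (minpoly ℤ β) = 0 → z ≠ β → ¬ (z.im = 0 ∧ 0 < z.re))) := by
  have hiff : ∀ β : ℝ, IsPisot β → (FiniteDigits β ↔
      ∀ z : ℂ, aeval z (minpoly ℤ β) = 0 → z ≠ β → ¬ (z.im = 0 ∧ 0 < z.re)) := by
    intro β hβ
    constructor
    · rintro ⟨m, hm⟩ z hz hne ⟨him, hre⟩
      refine Pool.Agent.R341.PosRep.converse hβ.one_lt hβ.int hz (hβ.lt z hz hne) him hre m ?_
      rw [← rep_iff]
      refine hm _ ?_ ?_ ?_
      · refine sub_mem (Algebra.self_mem_adjoin_singleton ℤ β) ?_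
        exact (Algebra.adjoin ℤ {β}).intCast_mem _
      · exact sub_nonneg.2 (Int.floor_le β)
      · linarith [Int.lt_floor_add_one β]
    · intro h
      obtain ⟨m, hm⟩ := Pool.Agent.R341.PosRep.uniform ⟨hβ.one_lt, hβ.int, hβ.lt, h⟩
      refine ⟨m, fun x hx h0 h1 => ?_⟩
      rw [Algebra.adjoin_singleton_eq_range_aeval] at hx
      obtain ⟨p, rfl⟩ := hx
      exact rep_iff.2 (hm p h0 h1)
  refine ⟨?_, hiff⟩
  intro β hβ _ hdeg hex
  obtain ⟨z, hz, him⟩ := hex
  rw [hiff β hβ]
  rintro w hw hwβ ⟨hwim, -⟩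
  classical
  -- four different roots
  have hzc : aeval ((starRingEnd ℂ) z) (minpoly ℤ β) = 0 := by
    have h1 := congrArg (starRingEnd ℂ) hz
    rw [map_zero, aeval_def, Polynomial.hom_eval₂] at h1
    rw [aeval_def]
    convert h1 using 2
    ext n
    simp
  have hβr : aeval (β : ℂ) (minpoly ℤ β) = 0 := by
    rw [Pool.Agent.R341.PosRep.aeval_ofReal, minpoly.aeval]
    simp
  have hsub : ({(β : ℂ), w, z, (starRingEnd ℂ) z} : Finset ℂ) ⊆
      ((minpoly ℤ β).aroots ℂ).toFinset := by
    intro y hy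
    rw [Multiset.mem_toFinset, mem_aroots]
    refine ⟨minpoly.ne_zero hβ.int, ?_⟩
    simp only [Finset.mem_insert, Finset.mem_singleton] at hy
    rcases hy with rfl | rfl | rfl | rfl
    · exact hβr
    · exact hw
    · exact hz
    · exact hzc
  have hcard : ({(β : ℂ), w, z, (starRingEnd ℂ) z} : Finset ℂ).card = 4 := by
    have h1 : z ≠ (starRingEnd ℂ) z := by
      intro h
      have := congrArg Complex.im h
      rw [Complex.conj_im] at this
      exact him (by linarith)
    have h2 : w ≠ z := by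
      rintro rfl; exact him hwim
    have h3 : w ≠ (starRingEnd ℂ) z := by
      intro h
      have := congrArg Complex.im h
      rw [Complex.conj_im, hwim] at this
      exact him (by linarith)
    have h4 : (β : ℂ) ≠ z := by
      intro h
      have := congrArg Complex.im h
      rw [Complex.ofReal_im] at this
      exact him this.symm
    have h5 : (β : ℂ) ≠ (starRingEnd ℂ) z := by
      intro h
      have := congrArg Complex.im h
      rw [Complex.conj_im, Complex.ofReal_im] at this
      exact him (by linarith)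
    rw [Finset.card_insert_of_notMem, Finset.card_insert_of_notMem, Finset.card_insert_of_notMem,
      Finset.card_singleton]
    · simpa using h1
    · simp only [Finset.mem_insert, Finset.mem_singleton, not_or]
      exact ⟨h2, h3⟩
    · simp only [Finset.mem_insert, Finset.mem_singleton, not_or]
      exact ⟨fun h => hwβ h.symm, h4, h5⟩
  have h1 := Finset.card_le_card hsub
  have h2 := (minpoly ℤ β).aroots ℂ |>.toFinset_card_le
  have h3 : Multiset.card ((minpoly ℤ β).aroots ℂ) ≤ (minpoly ℤ β).natDegree := by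
    rw [aroots]
    exact (card_roots' _).trans natDegree_map_le
  omega

end Pool.Agent.Results.MP_f878ff_nt.PositiveDigits
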